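import Pool.Agent.MPE.Real

/-!
# MP_a177dd_co: in every degree of homogeneity the polytopes encode all linear spaces of matrices
over the field with two elements
-/

set_option autoImplicit false

namespace Pool.Agent.Results.MP_a177dd_co.EveryDegree

open Pool.Agent.MPH Pool.Agent.MPE

/-- For every `m ≥ 1` there are simplices `P m S`, one for each linear space `S` of `a × b` matrices
over the field with two elements, with `2 ^ (2 m + 1 + 3 b + 9 a b) / |S|` vertices, whose vertex
sets are `m`-point homogeneous but not `(m + 1)`-point homogeneous, and such that (for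
`a, b, a', b' ≥ 1`) the vertex sets of `P m S` and `P m S'` have the same pattern of equal
distances if and only if `S' = P S Q` for some invertible matrices `P`, `Q`. -/
theorem result :
    ∃ (n : ∀ m a b : ℕ, Submodule (ZMod 2) (Matrix (Fin a) (Fin b) (ZMod 2)) → ℕ)
      (P : ∀ (m a b : ℕ) (S : Submodule (ZMod 2) (Matrix (Fin a) (Fin b) (ZMod 2))),
        Set (EuclideanSpace ℝ (Fin (n m a b S)))),
      (∀ m a b S, 1 ≤ m → IsSimplex (P m a b S) ∧
        Nat.card (vertices (P m a b S)) * Nat.card S = 2 ^ (2 * m + 1 + 3 * b + 9 * a * b) ∧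
        PointHomogeneous m (vertices (P m a b S)) ∧
        ¬ PointHomogeneous (m + 1) (vertices (P m a b S))) ∧
      ∀ (m a b a' b' : ℕ) (S : Submodule (ZMod 2) (Matrix (Fin a) (Fin b) (ZMod 2)))
        (S' : Submodule (ZMod 2) (Matrix (Fin a') (Fin b') (ZMod 2))),
        1 ≤ m → 0 < a → 0 < b → 0 < a' → 0 < b' →
          (SamePattern (vertices (P m a b S)) (vertices (P m a' b' S')) ↔ MatEquiv S S') := by
  classical
  have h := fun (m a b : ℕ) (S : Submodule (ZMod 2) (Matrix (Fin a) (Fin b) (ZMod 2))) =>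
    exists_simplex (X := X (m + 1) × ((Fin 3 × Fin b → ZMod 2) ×
      (Matrix (Fin 3 × Fin a) (Fin 3 × Fin b) (ZMod 2) ⧸ S.map dg)))
      (lex colX (col (bil S))) (lex_comm colX_comm col_comm)
      (fun x y z => lex_self (fun _ _ _ => col_self_iff) x y z)
  choose n P hP e he using h
  have hselfX : ∀ (r : ℕ) (x x' : X r), colX x x = colX x' x' := fun r x x' => by
    rw [colX_self, colX_self]
  refine ⟨n, P, fun m a b S hm => ⟨hP m a b S, ?_, ?_, ?_⟩, ?_⟩
  · rw [← Nat.card_congr (e m a b S), Nat.card_prod, Nat.card_prod, Nat.card_prod, card_Wt]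
    have h1 : Nat.card S = Nat.card (S.map dg) :=
      Nat.card_congr (Submodule.equivMapOfInjective dg dg_injective S).toEquiv
    have h2 := Submodule.card_eq_card_quotient_mul_card (S.map dg)
    have h3 : Nat.card (Fin 3 × Fin b → ZMod 2) = 2 ^ (3 * b) := by
      rw [Nat.card_fun, Nat.card_prod]
      simp
    have h4 : Nat.card (Matrix (Fin 3 × Fin a) (Fin 3 × Fin b) (ZMod 2)) = 2 ^ (9 * a * b) := by
      change Nat.card (Fin 3 × Fin a → Fin 3 × Fin b → ZMod 2) = _
      rw [Nat.card_fun, Nat.card_fun, Nat.card_prod, Nat.card_prod]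
      simp only [Nat.card_eq_fintype_card, Fintype.card_fin, ZMod.card]
      rw [← pow_mul]
      congr 1
      ring
    have h5 : Nat.card (V (m + 1)) = 2 ^ (m + 1) := by
      rw [Nat.card_fun]
      simp
    rw [h5, h3]
    rw [h4] at h2
    calc 2 ^ (m + 1) * 2 ^ m * (2 ^ (3 * b) * Nat.card
          (Matrix (Fin 3 × Fin a) (Fin 3 × Fin b) (ZMod 2) ⧸ S.map dg)) * Nat.card S
        = 2 ^ (m + 1) * 2 ^ m * 2 ^ (3 * b) * (Nat.card (S.map dg) * Nat.card
          (Matrix (Fin 3 × Fin a) (Fin 3 × Fin b) (ZMod 2) ⧸ S.map dg)) := by rw [h1]; ring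
      _ = 2 ^ (m + 1) * 2 ^ m * 2 ^ (3 * b) * 2 ^ (9 * a * b) := by rw [h2]
      _ = _ := by
        rw [← pow_add, ← pow_add, ← pow_add]
        congr 1
        ring
  · rw [pointHom_iff _ (e m a b S) (he m a b S)]
    intro A B hAB
    refine homLex (hselfX _) (fun A B hAB => homX (Nat.lt_succ_self m) A B hAB) ?_ A B hAB
    intro ι A' B' hAB'
    exact exists_colAut (sep_bil S) A' B' hAB'
  · rw [pointHom_iff _ (e m a b S) (he m a b S)]
    intro hcon
    obtain ⟨A, B, hA, hB, hAB, hno⟩ := nohomX (r := m + 1) (by omega)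
    obtain ⟨h1, h2⟩ := nohomLex (d := col (bil S)) (hselfX _) (0, 0) hA hB hAB hno
    obtain ⟨f, hf, hfA⟩ := hcon _ _ h1
    exact h2 f hf hfA
  · intro m a b a' b' S S' hm ha hb ha' hb'
    have : Nonempty (X (m + 1)) := ⟨(0, ⟨0, by simp⟩)⟩
    constructor
    · rintro ⟨F, hF⟩
      obtain ⟨G, hG⟩ := iso_of_lexIso (c := colX (r := m + 1)) (d := col (bil S)) (d' := col (bil S'))
        (fun _ _ _ => col_self_iff) (((e m a b S).trans F).trans (e m a' b' S').symm) (by
          intro p q p' q'
          rw [← he m a b S, hF, ← he m a' b' S']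
          simp)
      exact matEquiv_of_colIso ha hb hb' (F := G) hG
    · intro hM
      obtain ⟨G, hG⟩ := exists_colIso_of_matEquiv hM
      refine ⟨((e m a b S).symm.trans (Equiv.prodCongr (Equiv.refl _) G)).trans (e m a' b' S'), ?_⟩
      intro x y z t
      simp only [Equiv.trans_apply]
      rw [he m a' b' S', ← lexIso_of_iso G hG, ← he m a b S]
      simp

end Pool.Agent.Results.MP_a177dd_co.EveryDegree
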