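import Pool.Agent.Helper21.MPH.Count2

/-!
# MP_a177dd_co: the number of simplices with 2^k vertices whose vertex sets are m-point homogeneous
for every m, up to the pattern of equal distances
-/

set_option autoImplicit false

namespace Pool.Agent.Results.MP_a177dd_co.ManyTypes

open Pool.Agent.MPH

theorem numeric (k : ℕ) (hk : 150 ≤ k) : ∃ a b c : ℕ, 1 ≤ a ∧ 2 ≤ b ∧ 2 * a + 2 * b + 1 ≤ c ∧
    b + c = k ∧ 1 + a ^ 2 + b ^ 2 + c ^ 2 + k ^ 3 / 40 ≤ a * b * c := by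
  obtain ⟨t, ht1, ht2⟩ : ∃ t, 5 * t + 1 ≤ k ∧ k ≤ 5 * t + 5 :=
    ⟨(k - 1) / 5, by omega, by omega⟩
  obtain ⟨c, hc⟩ : ∃ c, t + c = k := ⟨k - t, by omega⟩
  refine ⟨t, t, c, by omega, by omega, by omega, hc, ?_⟩
  have h1 : 1 + t ^ 2 + t ^ 2 + c ^ 2 + k ^ 3 / 40 ≤ t * t * c ↔
      k ^ 3 / 40 ≤ t * t * c - (1 + t ^ 2 + t ^ 2 + c ^ 2) ∧
        (1 + t ^ 2 + t ^ 2 + c ^ 2) ≤ t * t * c := by
    omega
  have h2 : 40 * (1 + t ^ 2 + t ^ 2 + c ^ 2) + k ^ 3 ≤ 40 * (t * t * c) := by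
    obtain ⟨s, rfl⟩ : ∃ s, t = s + 29 := ⟨t - 29, by omega⟩
    obtain ⟨r, hr, rfl⟩ : ∃ r, r ≤ 4 ∧ c = 4 * (s + 29) + 1 + r := ⟨c - (4 * (s + 29) + 1), by
      omega, by omega⟩
    subst hc
    have hr0 : (0 : ℤ) ≤ r := by positivity
    zify
    have hr' : (r : ℤ) ≤ 4 := by exact_mod_cast hr
    have hs : (0 : ℤ) ≤ s := by positivity
    nlinarith [mul_nonneg hr0 (sub_nonneg.2 hr'), mul_nonneg hs (sub_nonneg.2 hr'),
      mul_nonneg (mul_nonneg hs hs) (sub_nonneg.2 hr'),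
      mul_nonneg (mul_nonneg hs hs) hs, mul_nonneg hs hs, mul_nonneg (mul_nonneg hs hr0) (sub_nonneg.2 hr'),
      mul_nonneg (mul_nonneg hr0 hr0) (sub_nonneg.2 hr')]
  have h3 : 40 * (k ^ 3 / 40) ≤ k ^ 3 := Nat.mul_div_le _ _
  omega

/-- For every `k ≥ 150` there are at least `2 ^ (k ^ 3 / 40)` simplices with `2 ^ k` vertices whose
vertex sets are `m`-point homogeneous for every `m`, no two of which have the same pattern of equal
distances. -/
theorem result (k : ℕ) (hk : 150 ≤ k) :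
    ∃ (N : ℕ) (n : Fin N → ℕ) (P : ∀ i, Set (EuclideanSpace ℝ (Fin (n i)))),
      2 ^ (k ^ 3 / 40) ≤ N ∧
      (∀ i, IsSimplex (P i) ∧ Nat.card (vertices (P i)) = 2 ^ k ∧
        ∀ m, PointHomogeneous m (vertices (P i))) ∧
      ∀ i j, SamePattern (vertices (P i)) (vertices (P j)) → i = j := by
  classical
  obtain ⟨a, b, c, ha, hb, hc, hbc, hnum⟩ := numeric k hk
  have h1 := card_quotient_ge ha hb hc
  let N := Nat.card (Quotient (stSetoid a b c))
  have : Finite (Quotient (stSetoid a b c)) := inferInstance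
  let e : Fin N ≃ Quotient (stSetoid a b c) := (Finite.equivFin _).symm
  have h := fun T : ST a b c => exists_polytope_of_sep T.2
  choose n P hP hhom v hv using h
  refine ⟨N, fun i => n (e i).out, fun i => P (e i).out, ?_, ?_, ?_⟩
  · have h2 : 2 ^ (1 + a ^ 2 + b ^ 2 + c ^ 2) * 2 ^ (k ^ 3 / 40) ≤
        2 ^ (1 + a ^ 2 + b ^ 2 + c ^ 2) * N := by
      rw [← pow_add]
      exact le_trans (Nat.pow_le_pow_right (by norm_num) hnum) h1
    exact Nat.le_of_mul_le_mul_left h2 (by positivity)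
  · intro i
    refine ⟨hP _, ?_, hhom _⟩
    rw [← Nat.card_congr (v (e i).out), Nat.card_prod, Nat.card_fun, Nat.card_fun]
    simp only [Nat.card_eq_fintype_card, Fintype.card_fin, ZMod.card]
    rw [← pow_add, hbc]
  · rintro i j ⟨F, hF⟩
    apply e.injective
    rw [← Quotient.out_equiv_out]
    refine ⟨((v (e i).out).trans F).trans (v (e j).out).symm, ?_⟩
    intro x y z t
    rw [← hv, hF, ← hv]
    simp

end Pool.Agent.Results.MP_a177dd_co.ManyTypes
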