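import Pool.Agent.RSP.Final

/-!
# MP_a177dd_co: the m-point homogeneous polytopes with an irreducible reflection group in
dimension at least nine
-/

set_option autoImplicit false

namespace Pool.Agent.Results.MP_a177dd_co.ReflectionSymmetric

open Pool.Agent.RSP

/-- Let `n ≥ 9`, `m ≥ 2`, and let `P` be a polytope in `ℝ ^ n` with more than one vertex whose
isometry group contains the reflection group `W(A_n)` or `W(D_n)`. The vertex set of `P` is `m`-point
homogeneous if and only if it is similar to one of the following sets: for every `m` the vertices of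
a regular simplex `S`, `S ∪ -S`, the vertices of a cross-polytope; for `m ≤ 3` the roots of `A_n`,
the vertices of a cube, of a demicube; for `m = 2` the vertices of a rectified cube, the permutations
of `(1, .., 1, 0, -1, .., -1)` (sum `0`), the vertices of a hypersimplex `H_k`, and `H_k ∪ -H_k` where
`2 k ≤ n` and `n + 1` does not divide `2 k ^ 2`. -/
theorem result : ∀ (n : ℕ) (P : Set (E n)), 9 ≤ n → IsPolytope P → (vertices P).Nontrivial →
    (SymA (vertices P) ∨ SymD (vertices P)) → ∀ m : ℕ, 2 ≤ m →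
    (PointHomogeneous m (vertices P) ↔
      (Sim (vertices P) (hyps (n + 1) 1 1) ∨
        Sim (vertices P) (hyps (n + 1) 1 1 ∪ hyps (n + 1) 1 (-1)) ∨
        Sim (vertices P) (cross n 1)) ∨
      (m ≤ 3 ∧ (Sim (vertices P) (rts (n + 1) 1) ∨ Sim (vertices P) (cube n 1) ∨
        Sim (vertices P) (half n 1 1))) ∨
      (m = 2 ∧ (Sim (vertices P) (rect n 1) ∨ Sim (vertices P) (mid (n + 1) 1) ∨
        (∃ k, 2 ≤ k ∧ k < n ∧ Sim (vertices P) (hyps (n + 1) k 1)) ∨
        ∃ k, 2 ≤ k ∧ 2 * k ≤ n ∧ ¬ n + 1 ∣ 2 * k ^ 2 ∧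
          Sim (vertices P) (hyps (n + 1) k 1 ∪ hyps (n + 1) k (-1))))) :=
  thm_Final

end Pool.Agent.Results.MP_a177dd_co.ReflectionSymmetric
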