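import Pool.Agent.Helper21.MPH.EncodeConv
import Pool.Agent.Helper21.MPH.Poly

/-!
# MP_a177dd_co: the polytopes whose vertex sets are m-point homogeneous for every m encode all
linear spaces of matrices over the field with two elements
-/

set_option autoImplicit false

namespace Pool.Agent.Results.MP_a177dd_co.Wildness

open Pool.Agent.MPH

/-- There are simplices `P(S)`, one for each linear space `S` of `a × b` matrices over the field
with two elements, `a, b ≥ 1`, with `2 ^ (3 b + 9 a b) / |S|` vertices, whose vertex sets are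
`m`-point homogeneous for every `m`, and such that `P(S)` and `P(S')` have the same distance
pattern if and only if `S' = P S Q` for some invertible matrices `P`, `Q`. -/
theorem result :
    ∃ (n : ∀ a b : ℕ, Submodule (ZMod 2) (Matrix (Fin a) (Fin b) (ZMod 2)) → ℕ)
      (P : ∀ (a b : ℕ) (S : Submodule (ZMod 2) (Matrix (Fin a) (Fin b) (ZMod 2))),
        Set (EuclideanSpace ℝ (Fin (n a b S)))),
      (∀ a b S, IsSimplex (P a b S) ∧
        Nat.card (vertices (P a b S)) * Nat.card S = 2 ^ (3 * b + 9 * a * b) ∧
        ∀ m, PointHomogeneous m (vertices (P a b S))) ∧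
      ∀ (a b a' b' : ℕ) (S : Submodule (ZMod 2) (Matrix (Fin a) (Fin b) (ZMod 2)))
        (S' : Submodule (ZMod 2) (Matrix (Fin a') (Fin b') (ZMod 2))),
        0 < a → 0 < b → 0 < a' → 0 < b' →
          (SamePattern (vertices (P a b S)) (vertices (P a' b' S')) ↔ MatEquiv S S') := by
  have h := fun (a b : ℕ) (S : Submodule (ZMod 2) (Matrix (Fin a) (Fin b) (ZMod 2))) =>
    exists_polytope_of_sep (sep_bil S)
  choose n P hP hhom e he using h
  refine ⟨n, P, fun a b S => ⟨hP a b S, ?_, hhom a b S⟩, ?_⟩
  · rw [← Nat.card_congr (e a b S), Nat.card_prod]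
    have h1 : Nat.card S = Nat.card (S.map dg) :=
      Nat.card_congr (Submodule.equivMapOfInjective dg dg_injective S).toEquiv
    have h2 := Submodule.card_eq_card_quotient_mul_card (S.map dg)
    rw [h1, mul_assoc, mul_comm (Nat.card (_ ⧸ _)), ← h2]
    have h3 : Nat.card (Fin 3 × Fin b → ZMod 2) = 2 ^ (3 * b) := by
      rw [Nat.card_fun, Nat.card_prod]
      simp
    have h4 : Nat.card (Matrix (Fin 3 × Fin a) (Fin 3 × Fin b) (ZMod 2)) = 2 ^ (9 * a * b) := by
      change Nat.card (Fin 3 × Fin a → Fin 3 × Fin b → ZMod 2) = _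
      rw [Nat.card_fun, Nat.card_fun, Nat.card_prod, Nat.card_prod]
      simp only [Nat.card_eq_fintype_card, Fintype.card_fin, ZMod.card]
      rw [← pow_mul]
      congr 1
      ring
    rw [h3, h4, ← pow_add]
  · intro a b a' b' S S' ha hb ha' hb'
    constructor
    · rintro ⟨F, hF⟩
      refine matEquiv_of_colIso ha hb hb' (F := ((e a b S).trans F).trans (e a' b' S').symm) ?_
      intro x y z t
      rw [← he a b S, hF, ← he a' b' S']
      simp
    · intro hM
      obtain ⟨F, hF⟩ := exists_colIso_of_matEquiv hM
      refine ⟨((e a b S).symm.trans F).trans (e a' b' S'), ?_⟩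
      intro x y z t
      simp only [Equiv.trans_apply]
      rw [he a' b' S', ← hF, ← he a b S]
      simp

end Pool.Agent.Results.MP_a177dd_co.Wildness
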